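import Pool.Agent.H77.BC.Targets

/-!
# Board `bcp_modules`, row CGL: the general linear group is connected
-/

set_option autoImplicit false

open Set Matrix

namespace Pool.Agent.H49.BCP

open Pool.Agent.H77.BC

theorem pf_CGL {M : Type} (U : RU M) (hV : RNV U) (hB : RKB U) (hG : RGL U) (hP : RPE U)
    (hO : OPN U) : CGL U := by
  intro K _ _ _ _ k
  constructor
  · refine hO K (V := Matrix (Fin k) (Fin k) K) (⊤ : Subgroup (GL (Fin k) K))
      (fun g => (g.val : Matrix (Fin k) (Fin k) K)) ?_ DFn_val ?_ ?_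
    · rw [Subgroup.coe_top]
      exact Ful.full
    · intro g _ g' _ h
      exact Units.ext h
    · rw [Subgroup.coe_top, hG k, (hV k k).2]
  · obtain ⟨h1, h2⟩ := hP (K := K) k
    refine hO K (V := K × ((Fin k → K) × Matrix (Fin k) (Fin k) K))
      (Pv e0 : Subgroup (GL (Fin (k + 1)) K))
      (fun g => ((g.val : Matrix (Fin (k + 1)) (Fin (k + 1)) K) 0 0,
        ((fun j : Fin k => (g.val : Matrix (Fin (k + 1)) (Fin (k + 1)) K) 0 j.succ),
          ((Matrix.of fun i j : Fin k =>
            (g.val : Matrix (Fin (k + 1)) (Fin (k + 1)) K) i.succ j.succ :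
              Matrix (Fin k) (Fin k) K))))) h1 ?_ ?_ ?_
    · refine DFn_pair ?_ (DFn_pair ?_ ?_)
      · exact DFn_comp (DFn_entry 0 0) DFn_val
      · exact DFn_vec fun j => DFn_comp (DFn_entry 0 j.succ) DFn_val
      · exact DFn_mat fun i j => DFn_comp (DFn_entry i.succ j.succ) DFn_val
    · intro g hg g' hg' h
      obtain ⟨a, φ, B, rfl⟩ := mem_Pv_e0.1 hg
      obtain ⟨a', φ', B', rfl⟩ := mem_Pv_e0.1 hg'
      have e1 := congrArg Prod.fst h
      have e2 := congrArg (fun p => p.2.1) h
      have e3 := congrArg (fun p => p.2.2) h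
      apply Units.ext
      rw [bl_val, bl_val]
      have f1 : (a : K) = (a' : K) := e1
      have f2 : φ = φ' := e2
      have f3 : (B.val : Matrix (Fin k) (Fin k) K) = B'.val := e3
      rw [f1, f2, f3]
    · rw [h2]
      have a1 : U.R (univ : Set (K × ((Fin k → K) × Matrix (Fin k) (Fin k) K))) =
          U.R (univ : Set K) + U.R (univ : Set ((Fin k → K) × Matrix (Fin k) (Fin k) K)) := by
        rw [← univ_prod_univ]
        exact hB.prod Ful.full Ful.full ⟨0, trivial⟩ ⟨0, trivial⟩
      have a2 : U.R (univ : Set ((Fin k → K) × Matrix (Fin k) (Fin k) K)) =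
          U.R (univ : Set (Fin k → K)) + U.R (univ : Set (Matrix (Fin k) (Fin k) K)) := by
        rw [← univ_prod_univ]
        exact hB.prod Ful.full Ful.full ⟨0, trivial⟩ ⟨0, trivial⟩
      rw [a1, a2, (hV (K := K) k k).1, (hV (K := K) k k).2]
      apply le_of_eq
      ring

end Pool.Agent.H49.BCP
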