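import Pool.Agent.H77.BC.Targets

/-!
# Board `bcp_modules`, row GRB: rank of an intersection of subgroups
-/

set_option autoImplicit false

open Set

namespace Pool.Agent.H49.BCP

open Pool.Agent.H77.BC

theorem pf_GRB {M : Type} (U : RU M) (hA : RKA U) (hB : RKB U) : GRB U := by
  intro Γ _ _ _ G0 H L hG0 hH hL hHG hLG
  have hHne : (H : Set Γ).Nonempty := ⟨1, H.one_mem⟩
  have hLne : (L : Set Γ).Nonempty := ⟨1, L.one_mem⟩
  have hX : U.D ((H : Set Γ) ×ˢ (L : Set Γ)) := D_prod hH hL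
  have hXne : ((H : Set Γ) ×ˢ (L : Set Γ)).Nonempty := hHne.prod hLne
  have hf : DFn U (fun p : Γ × Γ => p.1 * p.2) := DG.mul
  have hI : U.D ((H ⊓ L : Subgroup Γ) : Set Γ) := by
    rw [Subgroup.coe_inf]
    exact D_inter hH hL
  have hIne : ((H ⊓ L : Subgroup Γ) : Set Γ).Nonempty := ⟨1, (H ⊓ L).one_mem⟩
  -- the fibres
  have hfib : ∀ b ∈ (fun p : Γ × Γ => p.1 * p.2) '' ((H : Set Γ) ×ˢ (L : Set Γ)),
      U.R {a | a ∈ (H : Set Γ) ×ˢ (L : Set Γ) ∧ (fun p : Γ × Γ => p.1 * p.2) a = b} =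
        U.R ((H ⊓ L : Subgroup Γ) : Set Γ) := by
    rintro c ⟨⟨a, b⟩, ⟨ha, hb⟩, rfl⟩
    have ha' : a ∈ H := ha
    have hb' : b ∈ L := hb
    have hg : DFn U (fun x : Γ => (a * x, x⁻¹ * b)) :=
      DFn_pair (DFn_gmul (DFn_const a) DFn_id) (DFn_gmul (DFn_ginv DFn_id) (DFn_const b))
    have e : {p | p ∈ (H : Set Γ) ×ˢ (L : Set Γ) ∧ (fun p : Γ × Γ => p.1 * p.2) p =
        (fun p : Γ × Γ => p.1 * p.2) (a, b)} =
        (fun x : Γ => (a * x, x⁻¹ * b)) '' ((H ⊓ L : Subgroup Γ) : Set Γ) := by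
      ext ⟨u, v⟩
      constructor
      · rintro ⟨⟨hu, hv⟩, huv⟩
        have hu' : u ∈ H := hu
        have hv' : v ∈ L := hv
        have huv' : u * v = a * b := huv
        refine ⟨a⁻¹ * u, ⟨H.mul_mem (H.inv_mem ha') hu', ?_⟩, ?_⟩
        · have e1 : a⁻¹ * u = b * v⁻¹ := by
            rw [inv_mul_eq_iff_eq_mul, ← mul_assoc, ← huv', mul_inv_cancel_right]
          show a⁻¹ * u ∈ L
          rw [e1]
          exact L.mul_mem hb' (L.inv_mem hv')
        · show (a * (a⁻¹ * u), (a⁻¹ * u)⁻¹ * b) = (u, v)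
          refine Prod.ext ?_ ?_
          · show a * (a⁻¹ * u) = u
            rw [mul_inv_cancel_left]
          · show (a⁻¹ * u)⁻¹ * b = v
            rw [mul_inv_rev, inv_inv, mul_assoc, ← huv', inv_mul_cancel_left]
      · rintro ⟨x, ⟨hx1, hx2⟩, hx⟩
        have hx1' : x ∈ H := hx1
        have hx2' : x ∈ L := hx2
        have h1 : a * x = u := congrArg Prod.fst hx
        have h2 : x⁻¹ * b = v := congrArg Prod.snd hx
        subst h1 h2
        refine ⟨⟨H.mul_mem ha' hx1', L.mul_mem (L.inv_mem hx2') hb'⟩, ?_⟩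
        show a * x * (x⁻¹ * b) = a * b
        rw [mul_assoc, mul_inv_cancel_left]
    rw [e]
    apply hB.inj hI hg hIne
    intro x _ y _ hxy
    have h1 : a * x = a * y := congrArg Prod.fst hxy
    exact mul_left_cancel h1
  have h1 := hB.fib_eq hX hf hXne hfib
  have h2 := hB.prod hH hL hHne hLne
  have h3 : U.R ((fun p : Γ × Γ => p.1 * p.2) '' ((H : Set Γ) ×ˢ (L : Set Γ))) ≤
      U.R (G0 : Set Γ) := by
    apply hA.mono (DFn_image hf hX) hG0 (hXne.image _)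
    rintro _ ⟨⟨u, v⟩, ⟨hu, hv⟩, rfl⟩
    exact G0.mul_mem (hHG hu) (hLG hv)
  omega

end Pool.Agent.H49.BCP
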