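import Pool.Agent.H77.BC.Targets

/-!
# Board `bcp_modules`, row TYC: the case `r = 1`
-/

set_option autoImplicit false

open Set Matrix

namespace Pool.Agent.H49.BCP

open Pool.Agent.H77.BC

variable {K : Type} [Field K]

theorem blm_T {k : ℕ} (φ : Fin k → K) :
    blm (1 : K) φ 1 = 1 + vecMulVec e0 (Fin.cons 0 φ : Fin (k + 1) → K) := by
  ext i j
  refine Fin.cases ?_ (fun i => ?_) i <;> refine Fin.cases ?_ (fun j => ?_) j
  · simp [vecMulVec_apply, e0]
  · have h : (0 : Fin (k + 1)) ≠ j.succ := (Fin.succ_ne_zero j).symm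
    simp [vecMulVec_apply, e0, Matrix.one_apply, h]
  · simp [vecMulVec_apply, e0, Matrix.one_apply]
  · simp [vecMulVec_apply, e0, Matrix.one_apply]

theorem mem_AA_iff {k : ℕ} {H : Subgroup (GL (Fin (k + 1)) K)} {φ : Fin k → K} :
    φ ∈ AA H ↔ InT H e0 (Fin.cons 0 φ : Fin (k + 1) → K) := by
  have hval : ((bl 1 φ 1 : GL (Fin (k + 1)) K).val : Matrix (Fin (k + 1)) (Fin (k + 1)) K) =
      1 + vecMulVec e0 (Fin.cons 0 φ : Fin (k + 1) → K) := by
    rw [bl_val, Units.val_one, Units.val_one]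
    exact blm_T φ
  constructor
  · intro h
    exact ⟨bl 1 φ 1, h, hval⟩
  · rintro ⟨g, hg, he⟩
    have e : g = bl 1 φ 1 := Units.ext (he.trans hval.symm)
    rw [mem_AA, ← e]
    exact hg

theorem dot_e0 {k : ℕ} (φ : Fin (k + 1) → K) : φ ⬝ᵥ e0 = φ 0 := by
  simp [e0]

theorem dot_cons {k : ℕ} (φ : Fin (k + 1) → K) (u : Fin k → K) :
    φ ⬝ᵥ (Fin.cons 0 u : Fin (k + 1) → K) = (fun j : Fin k => φ j.succ) ⬝ᵥ u := by
  unfold dotProduct
  rw [Fin.sum_univ_succ]
  simp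

theorem eq_cons {k : ℕ} (φ : Fin (k + 1) → K) (h : φ 0 = 0) :
    φ = (Fin.cons 0 (fun j : Fin k => φ j.succ) : Fin (k + 1) → K) := by
  funext i
  refine Fin.cases ?_ (fun i => ?_) i
  · rw [h, Fin.cons_zero]
  · rw [Fin.cons_succ]

/-- complete groups of transvections with centre `e0` -/
theorem zero_of_InT {k : ℕ} (H : Subgroup (GL (Fin (k + 1)) K)) (φ : Fin (k + 1) → K)
    (h : ∀ t : K, InT H e0 (t • φ)) : φ 0 = 0 := by
  by_contra h0
  obtain ⟨g, -, hg⟩ := h (-(φ 0)⁻¹)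
  have h1 : (g.val : Matrix (Fin (k + 1)) (Fin (k + 1)) K) *ᵥ e0 = 0 := by
    rw [hg, add_mulVec, one_mulVec, vecMulVec_mulVec]
    rw [dot_e0]
    funext i
    simp [h0]
  have h2 : (e0 : Fin (k + 1) → K) = 0 := by
    have h3 : (g⁻¹).val *ᵥ ((g.val : Matrix (Fin (k + 1)) (Fin (k + 1)) K) *ᵥ e0) =
        (e0 : Fin (k + 1) → K) := by
      rw [mulVec_mulVec, ← Units.val_mul, inv_mul_cancel, Units.val_one, one_mulVec]
    rw [h1, mulVec_zero] at h3
    exact h3.symm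
  have h4 := congrFun h2 0
  simp [e0] at h4

theorem pf_TYC {M : Type} (U : RU M) (hA : RKA U) (hV : RNV U) (hR : REC U) (hc : COM)
    (hS : CMS) (hT : SLA) (h1 : TC1 U) (h2 : TC2 U) (_hJ : CJT) : TYC U := by
  intro K _ _ _ _ hf k hk hE H hH hr hAk
  obtain ⟨hρD, hAD, hle⟩ := hR (K := K) (k + 1) H hH
  rw [hf, hAk] at hle
  have hρ : (k + 1) * (k + 1) ≤ U.R (rho H : Set (GL (Fin (k + 1)) K)) + k := by
    nlinarith
  have hcom : ∀ s ∈ rho H, ∀ s' ∈ rho H, ∀ φ ∈ AA H,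
      φ ᵥ* ((s * s' * s⁻¹ * s'⁻¹).val : Matrix (Fin (k + 1)) (Fin (k + 1)) K) ∈ AA H :=
    fun s hs s' hs' φ hφ => hc H s s' hs hs' φ hφ
  -- the stabilizer of a point
  have main : ∀ u : Fin (k + 1) → K, u ≠ 0 → rho H = Pv u → Ty1 H (e0 (k := k + 1)) := by
    intro u hu hρu
    obtain ⟨ha, hb⟩ := h1 (K := K) hf k hk (AA H) hAD hAk u hu (by
      intro s hs s' hs'
      rw [← hρu] at hs hs'
      exact hcom s hs s' hs')
    refine ⟨(Fin.cons 0 u : Fin (k + 2) → K), ?_, ?_, ?_⟩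
    · intro a ha'
      apply hu
      funext j
      have := congrFun ha' j.succ
      simpa [e0] using this
    · intro φ hφ1 hφ2
      rw [dot_e0] at hφ1
      rw [dot_cons] at hφ2
      rw [eq_cons φ hφ1]
      exact mem_AA_iff.1 (ha _ hφ2)
    · intro φ hφ
      have h0 := zero_of_InT H φ hφ
      rw [dot_cons]
      apply hb
      intro t
      rw [mem_AA_iff]
      have h3 := hφ t
      have h4 : (t • φ) = (Fin.cons 0 (t • fun j : Fin (k + 1) => φ j.succ) :
          Fin (k + 2) → K) := by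
        have h5 := eq_cons (t • φ) (by simp [h0])
        rw [h5]
        rfl
      rw [h4] at h3
      exact h3
  rcases hE (rho H) hρD hρ with hSL | ⟨u, hu, hρu⟩ | ⟨χ, hχ, hρχ⟩
  · exfalso
    have hst : ∀ (i j : Fin (k + 1)) (t : K), i ≠ j → ∀ φ ∈ AA H,
        φ ᵥ* transvection i j t ∈ AA H := by
      intro i j t hij φ hφ
      obtain ⟨s, s', hs, hs', he⟩ := hS (K := K) i j t hij
      rw [← he]
      exact hcom s (hSL s hs) s' (hSL s' hs') φ hφ
    rcases hT (K := K) (k := k + 1) (by omega) (AA H) hst with h0 | h0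
    · have h3 : U.R (AA H : Set (Fin (k + 1) → K)) = 0 := by
        rw [hA.fin hAD ⟨0, (AA H).zero_mem⟩, h0]
        exact Set.finite_singleton _
      omega
    · have h3 := (hV (K := K) (k + 1) 0).1
      rw [h0] at hAk
      have h4 : U.R (univ : Set (Fin (k + 1) → K)) = k := hAk
      rw [hf] at h3
      omega
  · exact main u hu hρu
  · obtain ⟨u, hu, hχu⟩ := h2 (K := K) hf k hk (AA H) hAD hAk χ hχ (by
      intro s hs s' hs'
      rw [← hρχ] at hs hs'
      exact hcom s hs s' hs')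
    exact main u hu (hρχ.trans hχu)

end Pool.Agent.H49.BCP
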